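import Pool.Agent.helper92.ISO.SpecG

/-!
# Project ISO (MP_069684_lc), row DNV
-/

set_option autoImplicit false

open Filter Topology

namespace Pool.Agent.ISO

open Pool.Agent.PB

private theorem DNV_log_le (m : ℕ) (hm : 1 ≤ m) : Real.log m ≤ (harmonic m : ℝ) := by
  refine le_trans (Real.log_le_log (by exact_mod_cast hm) ?_) (log_add_one_le_harmonic m)
  push_cast
  linarith

/-- the large `m` -/
private theorem DNV_large (hUPB : UPB_stmt) (hDES : DES_stmt) (e : ℝ) (he : 0 < e) (he1 : e ≤ 1) (m : ℕ) (p : ℝ)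
    (hm : 1 ≤ m) (hlm : 0 < Real.log m) (ht : 1 / Real.log m ≤ (1 + e / 4) * theta m 1)
    (hp : (1 + e) * theta m 1 ≤ p) :
    ∃ (M R : ℕ) (K : Fin M → Finset (Fin R)), 1 ≤ M ∧ (M : ℝ) ≤ (129 / e ^ 2) * (m : ℝ) * (1 + Real.log m) ^ 2 ∧
      (R : ℝ) ≤ (129 / e ^ 2) * (m : ℝ) ∧ Design m 1 p K := by
  set θ : ℝ := theta m 1 with hθ
  have hmR : (1 : ℝ) ≤ m := by exact_mod_cast hm
  have hθ0 : 0 < θ := by
    have h1 : 0 < 1 / Real.log m := by positivity
    have h2 : 0 < (1 + e / 4) * θ := lt_of_lt_of_le h1 ht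
    exact (mul_pos_iff_of_pos_left (by positivity)).mp h2
  obtain ⟨μ, hμ, hv⟩ := hUPB m 1 le_rfl hm
  set q : ℝ := ((harmonic 1 : ℚ) : ℝ) / ((harmonic m : ℚ) : ℝ) with hq
  have hH1 : ((harmonic 1 : ℚ) : ℝ) = 1 := by
    norm_num [harmonic]
  have hq1 : q ≤ (1 + e / 4) * θ := by
    rw [hq, hH1]
    refine le_trans ?_ ht
    exact one_div_le_one_div_of_le hlm (DNV_log_le m hm)
  set M : ℕ := ⌈64 * m / (e ^ 2 * θ)⌉₊ with hM
  have hMl : 64 * m / (e ^ 2 * θ) ≤ (M : ℝ) := Nat.le_ceil _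
  have hMpos : 0 < 64 * (m : ℝ) / (e ^ 2 * θ) := by positivity
  have hMu : (M : ℝ) < 64 * m / (e ^ 2 * θ) + 1 := Nat.ceil_lt_add_one hMpos.le
  have hM0 : (0 : ℝ) < M := lt_of_lt_of_le hMpos hMl
  have hM1 : 1 ≤ M := by
    have : 0 < M := by exact_mod_cast hM0
    omega
  obtain ⟨K, hK1, hK2⟩ := hDES m m 1 M q (e / 8) μ (by positivity) (by linarith) hμ hv
  have hinv : 1 / θ ≤ 2 * Real.log m := by
    rw [div_le_iff₀ hlm] at ht
    rw [div_le_iff₀ hθ0]
    nlinarith [mul_pos hθ0 hlm]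
  have he2 : e ^ 2 ≤ 1 := by nlinarith
  have h129 : (129 : ℝ) ≤ 129 / e ^ 2 := by
    rw [le_div_iff₀ (by positivity)]
    linarith
  refine ⟨M, m, K, hM1, ?_, ?_, hK1, ?_⟩
  · have h1 : 64 * (m : ℝ) / (e ^ 2 * θ) ≤ 128 / e ^ 2 * (m * Real.log m) := by
      have h2 : 64 * (m : ℝ) / (e ^ 2 * θ) = 64 / e ^ 2 * (m * (1 / θ)) := by
        field_simp
      have h3 : 64 / e ^ 2 * (m * (1 / θ)) ≤ 64 / e ^ 2 * (m * (2 * Real.log m)) := by
        apply mul_le_mul_of_nonneg_left _ (by positivity)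
        exact mul_le_mul_of_nonneg_left hinv (by positivity)
      calc _ = _ := h2
        _ ≤ _ := h3
        _ = _ := by ring
    have h4 : (m : ℝ) * Real.log m ≤ m * (1 + Real.log m) ^ 2 := by
      apply mul_le_mul_of_nonneg_left _ (by positivity)
      nlinarith
    have h5 : (1 : ℝ) ≤ m * (1 + Real.log m) ^ 2 := by
      have : (1 : ℝ) ≤ (1 + Real.log m) ^ 2 := by nlinarith
      nlinarith
    have h6 : 128 / e ^ 2 * (m * Real.log m) ≤ 128 / e ^ 2 * (m * (1 + Real.log m) ^ 2) :=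
      mul_le_mul_of_nonneg_left h4 (by positivity)
    have h7 : (1 : ℝ) ≤ 1 / e ^ 2 * (m * (1 + Real.log m) ^ 2) := by
      have h8 : (1 : ℝ) ≤ 1 / e ^ 2 := by
        rw [le_div_iff₀ (by positivity)]
        linarith
      nlinarith
    calc (M : ℝ) ≤ 128 / e ^ 2 * (m * (1 + Real.log m) ^ 2) + 1 / e ^ 2 * (m * (1 + Real.log m) ^ 2) := by
          linarith
      _ = 129 / e ^ 2 * (m : ℝ) * (1 + Real.log m) ^ 2 := by ring
  · nlinarith
  · intro T
    refine lt_of_le_of_lt (hK2 T) ?_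
    have hlog2 : Real.log 2 < 1 := by
      have := Real.log_two_lt_d9
      linarith
    have hlog20 : 0 < Real.log 2 := Real.log_pos (by norm_num)
    have hm64 : (m : ℝ) ≤ e ^ 2 * θ * M / 64 := by
      rw [div_le_iff₀ (by positivity)] at hMl
      linarith
    have h1 : (m : ℝ) * Real.log 2 / (e / 8) ≤ e * θ * M / 8 * Real.log 2 := by
      rw [div_le_iff₀ (by positivity)]
      have h2 : (m : ℝ) * Real.log 2 ≤ (e ^ 2 * θ * M / 64) * Real.log 2 :=
        mul_le_mul_of_nonneg_right hm64 hlog20.le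
      calc (m : ℝ) * Real.log 2 ≤ (e ^ 2 * θ * M / 64) * Real.log 2 := h2
        _ = e * θ * M / 8 * Real.log 2 * (e / 8) := by ring
    have h3 : e * θ * M / 8 * Real.log 2 < e * θ * M / 8 := by
      have h4 : 0 < e * θ * M / 8 := by positivity
      nlinarith
    have h5 : (1 + e / 8) * q * M ≤ (1 + e / 8) * ((1 + e / 4) * θ) * M := by
      apply mul_le_mul_of_nonneg_right _ hM0.le
      exact mul_le_mul_of_nonneg_left hq1 (by positivity)
    have h6 : (1 + e / 8) * ((1 + e / 4) * θ) * M + e * θ * M / 8 ≤ (1 + e) * θ * M := by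
      have h7 : (1 + e / 8) * (1 + e / 4) + e / 8 ≤ 1 + e := by nlinarith
      have h8 : 0 < θ * M := by positivity
      have h9 := mul_le_mul_of_nonneg_right h7 h8.le
      calc _ = ((1 + e / 8) * (1 + e / 4) + e / 8) * (θ * M) := by ring
        _ ≤ (1 + e) * (θ * M) := h9
        _ = _ := by ring
    have h10 : (1 + e) * θ * M ≤ p * M := mul_le_mul_of_nonneg_right hp hM0.le
    calc (1 + e / 8) * q * M + m * Real.log 2 / (e / 8)
        < (1 + e / 8) * ((1 + e / 4) * θ) * M + e * θ * M / 8 := by linarith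
      _ ≤ (1 + e) * θ * M := h6
      _ ≤ p * M := h10

theorem DNV_proof (hUPB : UPB_stmt) (hDES : DES_stmt) (hLIM : LIM_stmt) (hDNU : DNU_stmt) : DNV_stmt := by
  intro ε hε
  set e : ℝ := min ε 1 with he
  have he0 : 0 < e := lt_min hε one_pos
  have he1 : e ≤ 1 := min_le_right _ _
  have hee : e ≤ ε := min_le_left _ _
  have hlim := hLIM.2 1 le_rfl
  have hH1 : ((harmonic 1 : ℚ) : ℝ) = 1 := by
    norm_num [harmonic]
  rw [hH1] at hlim
  have hlog : Tendsto (fun m : ℕ => Real.log m) atTop atTop :=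
    Real.tendsto_log_atTop.comp tendsto_natCast_atTop_atTop
  have hlt : 1 / (1 + e / 4) < 1 := by
    rw [div_lt_one (by positivity)]
    linarith
  obtain ⟨m₀, hm₀⟩ := eventually_atTop.mp ((hlim.eventually (lt_mem_nhds hlt)).and
    ((hlog.eventually_gt_atTop 0).and (eventually_ge_atTop 1)))
  obtain ⟨C, hC⟩ := hDNU ε hε
  refine ⟨129 / e ^ 2 + |C| * (m₀ + 1) * (1 + Real.log (m₀ + 1)), ?_⟩
  intro m p hm hp
  have hmR : (1 : ℝ) ≤ m := by exact_mod_cast hm
  have hlm0 : 0 ≤ Real.log m := Real.log_nonneg hmR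
  have hlm01 : 0 ≤ Real.log (m₀ + 1) := Real.log_nonneg (by
    have : (0 : ℝ) ≤ m₀ := Nat.cast_nonneg _
    linarith)
  have hadd : 0 ≤ |C| * (m₀ + 1) * (1 + Real.log (m₀ + 1)) := by positivity
  by_cases hmm : m₀ ≤ m
  · obtain ⟨h1, h2, -⟩ := hm₀ m hmm
    have ht : 1 / Real.log m ≤ (1 + e / 4) * theta m 1 := by
      rw [div_le_iff₀ h2]
      rw [div_lt_iff₀ (by positivity)] at h1
      linarith
    have hθ0 : 0 ≤ theta m 1 := by
      have h3 : 0 < 1 / Real.log m := by positivity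
      have h4 : 0 < (1 + e / 4) * theta m 1 := lt_of_lt_of_le h3 ht
      exact ((mul_pos_iff_of_pos_left (by positivity)).mp h4).le
    have hp' : (1 + e) * theta m 1 ≤ p := le_trans (mul_le_mul_of_nonneg_right (by linarith) hθ0) hp
    obtain ⟨M, R, K, a1, a2, a3, a4⟩ := DNV_large hUPB hDES e he0 he1 m p hm h2 ht hp'
    refine ⟨M, R, K, a1, a2.trans ?_, a3.trans ?_, a4⟩
    · apply mul_le_mul_of_nonneg_right _ (by positivity)
      apply mul_le_mul_of_nonneg_right _ (by positivity)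
      linarith
    · apply mul_le_mul_of_nonneg_right _ (by positivity)
      linarith
  · have hmm' : (m : ℝ) ≤ m₀ + 1 := by
      have : m ≤ m₀ + 1 := by omega
      exact_mod_cast this
    obtain ⟨M, R, K, a1, a2, a3, a4⟩ := hC m 1 p hm le_rfl hp
    have hl : Real.log m ≤ Real.log (m₀ + 1) := Real.log_le_log (by linarith) hmm'
    have hm2 : (m : ℝ) ^ 2 ≤ (m₀ + 1) * m := by nlinarith
    have h129 : 0 ≤ 129 / e ^ 2 := by positivity
    refine ⟨M, R, K, a1, a2.trans ?_, a3.trans ?_, a4⟩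
    · have b1 : C * (m : ℝ) ^ 2 ≤ |C| * ((m₀ + 1) * m) :=
        mul_le_mul (le_abs_self C) hm2 (by positivity) (abs_nonneg C)
      have b2 : C * (m : ℝ) ^ 2 * (1 + Real.log m) ^ 2 ≤ |C| * ((m₀ + 1) * m) * (1 + Real.log m) ^ 2 :=
        mul_le_mul_of_nonneg_right b1 (by positivity)
      refine b2.trans ?_
      apply mul_le_mul_of_nonneg_right _ (by positivity)
      have b3 : |C| * ((m₀ + 1) * m) * 1 ≤ |C| * ((m₀ + 1) * m) * (1 + Real.log (m₀ + 1)) := by
        apply mul_le_mul_of_nonneg_left _ (by positivity)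
        linarith
      have b4 : 0 ≤ 129 / e ^ 2 * (m : ℝ) := by positivity
      calc |C| * ((m₀ + 1) * m) = |C| * ((m₀ + 1) * m) * 1 := by ring
        _ ≤ |C| * ((m₀ + 1) * m) * (1 + Real.log (m₀ + 1)) := b3
        _ ≤ 129 / e ^ 2 * (m : ℝ) + |C| * ((m₀ + 1) * m) * (1 + Real.log (m₀ + 1)) := by linarith
        _ = _ := by ring
    · have b1 : C * (m : ℝ) ^ 2 ≤ |C| * ((m₀ + 1) * m) :=
        mul_le_mul (le_abs_self C) hm2 (by positivity) (abs_nonneg C)
      have b2 : C * (m : ℝ) ^ 2 * (1 + Real.log m) ≤ |C| * ((m₀ + 1) * m) * (1 + Real.log (m₀ + 1)) :=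
        mul_le_mul b1 (by linarith) (by positivity) (by positivity)
      have b4 : 0 ≤ 129 / e ^ 2 * (m : ℝ) := by positivity
      calc C * (m : ℝ) ^ 2 * (1 + Real.log m) ≤ |C| * ((m₀ + 1) * m) * (1 + Real.log (m₀ + 1)) := b2
        _ ≤ 129 / e ^ 2 * (m : ℝ) + |C| * ((m₀ + 1) * m) * (1 + Real.log (m₀ + 1)) := by linarith
        _ = _ := by ring

end Pool.Agent.ISO
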