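import Pool.Agent.helper92.ISO.SpecG

/-!
# Project ISO (MP_069684_lc), row LIM
-/

set_option autoImplicit false

open Filter Topology

namespace Pool.Agent.ISO

open Pool.Agent.PB

theorem LIM_log_le (m : ℕ) (hm : 1 ≤ m) : Real.log m ≤ (harmonic m : ℝ) := by
  refine le_trans (Real.log_le_log (by exact_mod_cast hm) ?_) (log_add_one_le_harmonic m)
  push_cast
  linarith

theorem LIM_pos (m : ℕ) (hm : 1 ≤ m) : 0 < (harmonic m : ℝ) := by
  exact_mod_cast harmonic_pos (by omega : m ≠ 0)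

theorem LIM_proof (hTHB : THB_stmt) (hUPB : UPB_stmt) : LIM_stmt := by
  have h1 : ∀ m κ : ℕ, 1 ≤ κ → κ ≤ m → theta m κ ≤ (harmonic κ : ℝ) / (harmonic m : ℝ) := by
    intro m κ hκ hm
    obtain ⟨μ, hμ, hv⟩ := hUPB m κ hκ hm
    exact (hTHB m κ (hκ.trans hm) hκ).1 _ m μ hμ hv
  refine ⟨h1, ?_⟩
  intro κ hκ
  set H : ℝ := (harmonic κ : ℝ) with hH
  have hH0 : 0 < H := LIM_pos κ hκ
  rw [Metric.tendsto_atTop]
  intro ε hε
  set δ : ℝ := min (ε / 2) 1 with hδ
  have hδ0 : 0 < δ := lt_min (by positivity) one_pos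
  have hδ1 : δ ≤ 1 := min_le_right _ _
  have hδ2 : δ ≤ ε / 2 := min_le_left _ _
  set S : ℝ := Real.log (1 / δ) + H with hS
  have hS0 : 0 < S := by
    have : 0 ≤ Real.log (1 / δ) := by
      apply Real.log_nonneg
      rw [le_div_iff₀ hδ0]
      linarith
    linarith
  have hlog : Tendsto (fun m : ℕ => Real.log m) atTop atTop :=
    Real.tendsto_log_atTop.comp tendsto_natCast_atTop_atTop
  obtain ⟨N, hN⟩ := (eventually_atTop.mp ((hlog.eventually_gt_atTop (2 * H * S / ε)).and (eventually_ge_atTop κ)))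
  refine ⟨N, fun m hm => ?_⟩
  obtain ⟨h2, h3⟩ := hN m hm
  have hm1 : 1 ≤ m := hκ.trans h3
  have hlm : 0 < Real.log m := lt_trans (by positivity) h2
  obtain ⟨-, -, ht0, ht1, -, h4⟩ := hTHB m κ hm1 hκ
  have h5 := h4 δ hδ0 hδ1
  have h6 := h1 m κ hκ h3
  have h7 := LIM_log_le m hm1
  have h8 : theta m κ * Real.log m ≤ H := by
    rw [le_div_iff₀ (LIM_pos m hm1)] at h6
    exact (mul_le_mul_of_nonneg_left h7 ht0.le).trans h6
  have h9 : Real.log (m / δ) = Real.log m + Real.log (1 / δ) := by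
    rw [← Real.log_mul (by positivity) (by positivity)]
    congr 1
    ring
  rw [h9] at h5
  have h10 : H - δ ≤ theta m κ * Real.log m + theta m κ * S := by
    rw [hS]
    linarith
  have h11 : theta m κ * S < ε / 2 := by
    have h12 : theta m κ ≤ H / Real.log m := by
      rw [le_div_iff₀ hlm]
      exact h8
    have h13 : theta m κ * S ≤ H / Real.log m * S := mul_le_mul_of_nonneg_right h12 hS0.le
    refine lt_of_le_of_lt h13 ?_
    rw [div_mul_eq_mul_div, div_lt_iff₀ hlm]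
    rw [div_lt_iff₀ hε] at h2
    linarith
  rw [Real.dist_eq, abs_lt]
  constructor
  · linarith
  · linarith

end Pool.Agent.ISO
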